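import Pool.Agent.W358.ELT.C1BCore

set_option autoImplicit false

/-!
Case (1b).
-/

namespace Pool.Agent.W358.ELT

open Pool.Agent.W622.ETC Module

theorem t_C1B (hFIND : S_FIND) (hFDEC : S_FDEC) (hFUNI : S_FUNI) (hF5 : S_F5) (hBNT : S_BNT)
    (hBEV : S_BEV) (hOM : S_OM) (hRIG : S_RIG) (hFULL : S_FULL) : S_C1B := by
  classical
  intro V _ _ _ A hFW hdim
  have hMC := hFW.mc
  have halt := hMC.alt
  have hbad : ∀ B ∈ BB A, om A B ∈ A ∧ om A B ≠ 0 ∧ sp (om A B) = B ∧
      (∀ η ∈ res A B, η = 0 ∨ η = om A B) ∧ Even (finrank (ZMod 2) B) ∧ 2 ≤ finrank (ZMod 2) B :=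
    fun B hB => hOM V A B halt ((hBEV V A).2.1 hMC B hB)
  have hnt : ∀ B ∈ BB A, B ≠ ⊤ ∧ B ≠ ⊥ := fun B hB => hBNT V A B hMC hB.1
  have htopne : (⊥ : DSub V) ≠ ⊤ := by
    intro h
    have h1 : finrank (ZMod 2) (⊤ : DSub V) = 0 := by rw [← h, finrank_bot]
    rw [finrank_top, finrank_Dl] at h1
    have := hFW.four
    omega
  -- disjointness from P
  have hdisj : ∀ B ∈ BB A, Disjoint B (PP A) := by
    intro B hB
    have h1 : sSup ({B} : Set (DSub V)) ≠ ⊤ := by rw [sSup_singleton]; exact (hnt B hB).1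
    have h2 := hFIND V A {B} hFW (Set.singleton_subset_iff.mpr hB) h1
    refine h2.disjoint_sSup (Or.inr rfl) (fun _ h => Or.inl h) ?_
    intro h3
    exact hB.2 h3.2
  -- two bad blocks span
  have htop : ∀ B ∈ BB A, ∀ B' ∈ BB A, B ≠ B' → B ⊔ B' = ⊤ := by
    intro B hB B' hB' hne
    by_contra hc
    have h1 : sSup ({B, B'} : Set (DSub V)) ≠ ⊤ := by rw [sSup_pair]; exact hc
    have h0 : ({B, B'} : Set (DSub V)) ⊆ BB A := by
      rintro x (rfl | rfl)
      · exact hB
      · exact hB'
    have h2 := hFIND V A {B, B'} hFW h0 h1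
    have h3 : Disjoint B (sSup (insert B' (GB A))) := by
      refine h2.disjoint_sSup (Or.inr (Or.inl rfl)) ?_ ?_
      · rintro x (rfl | hx)
        · exact Or.inr (Or.inr rfl)
        · exact Or.inl hx
      · rintro (h4 | h4)
        · exact hne h4
        · exact hB.2 h4.2
    rw [sSup_insert] at h3
    have h5 := Submodule.finrank_sup_add_finrank_inf_eq B (B' ⊔ sSup (GB A))
    rw [h3.eq_bot, finrank_bot, add_zero] at h5
    have h6 := Submodule.finrank_sup_add_finrank_inf_eq B' (sSup (GB A))
    rw [show B' ⊓ sSup (GB A) = ⊥ from (hdisj B' hB').eq_bot, finrank_bot, add_zero] at h6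
    have h7 : finrank (ZMod 2) (B ⊔ (B' ⊔ sSup (GB A)) : DSub V) ≤ finrank (ZMod 2) (Dl V) :=
      Submodule.finrank_le _
    rw [finrank_Dl] at h7
    have h8 := hdim B hB
    have h9 := (hbad B' hB').2.2.2.2.2
    unfold PP at h8
    omega
  -- there are two bad blocks
  have htwo : ∃ B ∈ BB A, ∃ B' ∈ BB A, B ≠ B' := by
    have h1 := hF5 V A hFW
    have h2 : (BB A).Nonempty := by
      by_contra hc
      rw [Set.not_nonempty_iff_eq_empty] at hc
      rw [hc, sSup_empty] at h1
      exact htopne h1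
    obtain ⟨B, hB⟩ := h2
    refine ⟨B, hB, ?_⟩
    by_contra hc
    push Not at hc
    have h3 : BB A = {B} := by
      ext x
      exact ⟨fun hx => (hc x hx).symm, fun hx => by rw [Set.mem_singleton_iff.mp hx]; exact hB⟩
    rw [h3, sSup_singleton] at h1
    exact (hnt B hB).1 h1
  set Ag : Fam V := ⨆ X ∈ GB A, res A X with hAg
  have hAgA : Ag ≤ A := iSup₂_le fun X _ => res_le A X
  have hAgP : Ag ≤ res A (PP A) := iSup₂_le fun X hX => res_mono A (le_sSup hX)
  -- decomposition
  have hsub : ∀ N : Finset (DSub V), (N : Set (DSub V)) ⊆ BB A →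
      sSup (N : Set (DSub V)) ≠ ⊤ → N = ∅ ∨ ∃ B ∈ BB A, N = {B} := by
    intro N hN hNt
    rcases N.eq_empty_or_nonempty with h1 | ⟨B, hB⟩
    · exact Or.inl h1
    · right
      refine ⟨B, hN hB, ?_⟩
      rw [Finset.eq_singleton_iff_unique_mem]
      refine ⟨hB, fun B' hB' => ?_⟩
      by_contra hne
      apply hNt
      rw [eq_top_iff, ← htop B' (hN hB') B (hN hB) hne]
      exact sup_le (le_sSup hB') (le_sSup hB)
  obtain ⟨B₀, hB₀, B₁, hB₁, hne⟩ := htwo
  have hctx : Ctx A (PP A) Ag (BB A) (om A) (finrank (ZMod 2) B₀) (finrank (ZMod 2) (PP A)) := by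
    refine
      { alt := halt
        lk := hMC.her.linked
        oA := fun B hB => (hbad B hB).1
        osp := fun B hB => (hbad B hB).2.2.1
        dimB := ?_
        m2 := (hbad B₀ hB₀).2.2.2.2.2
        dimP := rfl
        dim := (hdim B₀ hB₀).symm
        disj := hdisj
        top := htop
        two := ⟨B₀, hB₀, B₁, hB₁, hne⟩
        agA := hAgA
        agP := fun γ hγ => (mem_res'.mp (hAgP hγ)).2
        dec := ?_
        uni := ?_
        uni0 := ?_
        full := ?_ }
    · intro B hB
      have h1 := hdim B hB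
      have h2 := hdim B₀ hB₀
      omega
    · intro ζ hζ
      obtain ⟨N, hN, hNt, γ, hγ, he⟩ := hFDEC V A ζ hFW hζ
      refine ⟨γ, hγ, ?_⟩
      rcases hsub N hN hNt with rfl | ⟨B, hB, rfl⟩
      · left; rw [he, Finset.sum_empty, add_zero]
      · right; refine ⟨B, hB, ?_⟩; rw [he, Finset.sum_singleton]
    · intro γ hγ γ' hγ' B hB B' hB' he
      have h1 := hFUNI V A {B} {B'} γ γ' hFW (by simpa using hB) (by simpa using hB')
        (by simpa using (hnt B hB).1) (by simpa using (hnt B' hB').1) hγ hγ'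
        (by rw [Finset.sum_singleton, Finset.sum_singleton]; exact he)
      exact ⟨h1.1, Finset.singleton_injective h1.2⟩
    · intro γ hγ γ' hγ' B hB he
      have h1 := hFUNI V A {B} ∅ γ γ' hFW (by simpa using hB) (by simp)
        (by simpa using (hnt B hB).1) (by simpa using htopne) hγ hγ'
        (by rw [Finset.sum_singleton, Finset.sum_empty, add_zero]; exact he)
      exact Finset.singleton_ne_empty B h1.2
    · intro g hg
      have hres : ∀ X ∈ GB A, res Ag X = res A X := by
        intro X hX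
        refine le_antisymm (res_mono_left hAgA X) ?_
        intro ω hω
        exact ⟨le_iSup₂_of_le (f := fun X (_ : X ∈ GB A) => res A X) X hX le_rfl hω, hω.2⟩
      have hcomps : Comps Ag (GB A) := by
        refine ⟨?_, ?_, ?_⟩
        · have := hFIND V A ∅ hFW (Set.empty_subset _) (by rw [sSup_empty]; exact htopne)
          rwa [Set.union_empty] at this
        · rw [hAg]
          refine le_antisymm ?_ ?_
          · exact iSup₂_mono fun X hX => (hres X hX).ge
          · exact iSup₂_le fun X hX => res_le _ X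
        · intro X hX
          have hXA : ∀ ω ∈ A, sp ω ≤ X → ω ∈ Ag := by
            intro ω hω hs
            have h1 : ω ∈ res A X := mem_res'.mpr ⟨hω, hs⟩
            rw [← hres X hX] at h1
            exact h1.1
          rcases hX.1 with h1 | ⟨ω, h1, h2, h3⟩
          · right
            obtain ⟨⟨p, hp⟩, -⟩ := h1
            refine ⟨p, hp.1, hp.2.1, hp.2.2.1, fun g hg => ?_⟩
            refine hXA _ (hp.2.2.2 g hg) ?_
            refine (sp_wd_le p g).trans ?_
            rw [Submodule.span_le]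
            rintro x (rfl | rfl)
            · exact hp.2.1
            · exact hg
          · left
            refine ⟨ω, ⟨hXA ω h1.1 h2.ge, h1.2.1, fun η hη hs => h1.2.2 η (hAgA hη) hs⟩, h2⟩
      obtain ⟨γ, hγ, a, ha⟩ := hFULL V Ag (GB A) g (fun ω hω => halt ω (hAgA hω)) hcomps hg
      exact ⟨γ, hγ, a, ha⟩
  rcases hctx.exp with h1 | h1
  · -- first case
    have h2 := hctx.case1 h1
    have h3 := hdim B₀ hB₀
    have h4 := Submodule.finrank_add_le_finrank_add_finrank B₀ B₁
    rw [htop B₀ hB₀ B₁ hB₁ hne, finrank_top, finrank_Dl] at h4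
    have h5 := hdim B₁ hB₁
    have h6 := hFW.four
    have h7 : finrank (ZMod 2) (PP A) = 1 := by omega
    -- `P` contains a block
    have h8 : (GB A).Nonempty := by
      by_contra hc
      rw [Set.not_nonempty_iff_eq_empty] at hc
      unfold PP at h7
      rw [hc, sSup_empty, finrank_bot] at h7
      exact zero_ne_one h7
    obtain ⟨X, hX⟩ := h8
    have h9 : finrank (ZMod 2) X ≤ finrank (ZMod 2) (PP A) :=
      Submodule.finrank_mono (le_sSup hX)
    have h10 : 2 ≤ finrank (ZMod 2) X := by
      rcases hX.1 with h | h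
      · obtain ⟨⟨p, hp⟩, -⟩ := h
        have := hp.1
        omega
      · exact (hOM V A X halt h).2.2.2.2.2
    omega
  · have h2 := hctx.case2 h1
    have hV : ∃ b : V, b ≠ 0 := by
      by_contra hc
      push Not at hc
      have h3 : finrank (ZMod 2) V = 0 := by
        have : Subsingleton V := ⟨fun x y => by rw [hc x, hc y]⟩
        exact Module.finrank_zero_of_subsingleton
      have := hFW.four
      omega
    obtain ⟨b, hb⟩ := hV
    exact hMC.nel (hRIG V A b halt hMC.her hb (hctx.rigid h1 h2 hb)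
      (hMC.el (ann b) (ann_ne_top hb)))

end Pool.Agent.W358.ELT
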